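import Pool.Agent.TH823.SF.Log

/-! Logarithmically averaged short exponential sums of the Liouville function, with the supremum over a set of
frequencies of dimension less than one half, which may depend on the length of the window. -/

set_option autoImplicit false

open Finset

namespace Pool.Agent.Results.MP_f12790_nt.SmallFrequencySets

/-- The covering numbers modulo one of the set `A` of real numbers, at the scales `1 / n` with `n ≤ H`, are at
most `C n ^ s`. -/
def Covering (H : ℕ) (A : Set ℝ) (C s : ℝ) : Prop :=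
  ∀ n : ℕ, 1 ≤ n → n ≤ H → ∃ S : Finset ℝ, (S.card : ℝ) ≤ C * (n : ℝ) ^ s ∧
    ∀ α ∈ A, ∃ y ∈ S, ∃ k : ℤ, |α - y - k| ≤ 1 / n

/-- **Local Fourier uniformity of the Liouville function in logarithmic averages, for small sets of
frequencies.** For `s < 1/2` and all `H, ω, X` with `H₀ ≤ H ≤ ω ≤ X`, the sum over `X/ω ≤ n ≤ X` of
`(1/n) sup_{α ∈ A} |∑_{h ≤ H} λ(n + h) e(h α)|` is at most `ε H log ω`, for every set `A` of frequencies whose
covering numbers at the scales `1 / n`, `n ≤ H`, are at most `C n ^ s`. -/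
theorem result (C s : ℝ) (hs : s < 1 / 2) :
    ∀ ε : ℝ, 0 < ε → ∃ H₀ : ℕ, ∀ H : ℕ, H₀ ≤ H → ∀ A : Set ℝ, Covering H A C s →
      ∀ ω X : ℝ, (H : ℝ) ≤ ω → ω ≤ X →
        (∑ n ∈ Finset.Icc ⌈X / ω⌉₊ ⌊X⌋₊,
            (⨆ α : A,
              ‖∑ h ∈ Finset.Icc 1 H,
                  ((-1 : ℂ) ^ (ArithmeticFunction.cardFactors (n + h))) *
                    Complex.exp (2 * (Real.pi : ℂ) * Complex.I * (h : ℂ) * (((α : A) : ℝ) : ℂ))‖)
              / (n : ℝ))
          ≤ ε * (H : ℝ) * Real.log ω := by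
  intro ε hε
  obtain ⟨H0, h0⟩ := Pool.Agent.TH823.SF.logavg C s hs ε hε
  exact ⟨H0, fun H hH A hA ω X h1 h2 => h0 H hH A hA ω X h1 h2⟩

end Pool.Agent.Results.MP_f12790_nt.SmallFrequencySets
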